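import Pool.Agent.Helper13.RG.Stmts

/-! # MP_8312c9_nt, rigidity: module COW -/

set_option autoImplicit false

open scoped Classical

namespace Pool.Agent.Helper13.RG

open Pool.Agent.Helper14.BSC Pool.Agent.Helper13.ZL

theorem cow_add {p : ℕ} [Fact p.Prime] {a b : ℂ_[p]} {r : ℝ} (ha : ‖a‖ < r) (hb : ‖b‖ < r) :
    ‖a + b‖ < r :=
  (IsUltrametricDist.norm_add_le_max _ _).trans_lt (max_lt ha hb)

theorem cow_near {p : ℕ} [Fact p.Prime] {a b : ℂ_[p]} (ha : ‖a‖ = 1) (h : ‖a - b‖ < 1) :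
    ‖b‖ = 1 := by
  apply le_antisymm
  · have : b = (b - a) + a := by ring
    rw [this]
    rw [norm_sub_rev] at h
    exact (IsUltrametricDist.norm_add_le_max _ _).trans (max_le h.le ha.le)
  · by_contra hcon
    push Not at hcon
    have h2 : ‖(a - b) + b‖ < 1 := cow_add h hcon
    rw [sub_add_cancel, ha] at h2
    exact lt_irrefl _ h2

theorem cow_one {p : ℕ} [Fact p.Prime] {a : ℂ_[p]} (h : ‖a - 1‖ < 1) : ‖a‖ = 1 := by
  rw [norm_sub_rev] at h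
  exact cow_near norm_one h

theorem cow_mul {p : ℕ} [Fact p.Prime] {a b : ℂ_[p]} (ha : ‖a - 1‖ < 1) (hb : ‖b - 1‖ < 1) :
    ‖a * b - 1‖ < 1 := by
  have : a * b - 1 = a * (b - 1) + (a - 1) := by ring
  rw [this]
  apply cow_add _ ha
  rw [norm_mul, cow_one ha, one_mul]
  exact hb

theorem cow_pow {p : ℕ} [Fact p.Prime] {a : ℂ_[p]} (h : ‖a - 1‖ < 1) (n : ℕ) :
    ‖a ^ n - 1‖ < 1 := by
  induction n with
  | zero => simp
  | succ n ih =>
    rw [pow_succ]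
    exact cow_mul ih h

theorem st_COW (hC : ST_CLO) (hP : Pool.Agent.Helper22.TW.ST_PL) : ST_COW := by
  intro k Ω _ _ _ _ _ D D' v p _ σ P P' hv x y hx hxy ℓ hℓ a a' g g' hxa hya
  obtain ⟨E₀, hfin, hσ, hdense⟩ := hC k p σ
  have hy : ‖P'.φ y‖ = 1 := cow_near hx hxy
  have hx0 : P.φ x ≠ 0 := by
    intro h; rw [h, norm_zero] at hx; exact zero_ne_one hx
  have hy0 : P'.φ y ≠ 0 := by
    intro h; rw [h, norm_zero] at hy; exact zero_ne_one hy
  obtain ⟨w, hw, hw0, ha⟩ := (hP k Ω D p σ E₀ hfin hσ P).2 x hx0 ℓ hℓ a g hxa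
  obtain ⟨w', hw', hw0', ha'⟩ := (hP k Ω D' p σ E₀ hfin hσ P').2 y hy0 ℓ hℓ a' g' hya
  have hu : w' / w ∈ E₀ := E₀.div_mem hw' hw
  have hu0 : w' / w ≠ 0 := div_ne_zero hw0' hw0
  obtain ⟨t, ht⟩ := hdense _ hu ‖w' / w‖ (norm_pos_iff.2 hu0)
  refine ⟨t, ?_⟩
  unfold Near
  rw [hv]
  have ha0' : a' ≠ 0 := by
    intro h
    rw [h, map_zero] at ha'
    exact mul_ne_zero hy0 (pow_ne_zero _ hw0') ha'.symm
  have h1 : ‖P.φ x / P'.φ y - 1‖ < 1 := by
    have : P.φ x / P'.φ y - 1 = (P.φ x - P'.φ y) / P'.φ y := by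
      rw [sub_div, div_self hy0]
    rw [this, norm_div, hy, div_one]
    exact hxy
  have h2 : ‖σ t * (w / w') - 1‖ < 1 := by
    have h3 : σ t * (w / w') - 1 = (σ t - w' / w) / (w' / w) := by
      field_simp
    rw [h3, norm_div, div_lt_one (norm_pos_iff.2 hu0)]
    exact ht
  have h4 : σ (a / a' * t ^ ℓ - 1) = P.φ x / P'.φ y * (σ t * (w / w')) ^ ℓ - 1 := by
    rw [map_sub, map_mul, map_div₀, map_pow, map_one, ha, ha', mul_pow, div_pow]
    field_simp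
  rw [h4]
  exact cow_mul h1 (cow_pow h2 ℓ)

end Pool.Agent.Helper13.RG
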